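import Pool.Agent.H682R3.MM.Nuc

namespace Pool.Agent.H682R3.MM

open Finset Matrix

variable {𝕜 : Type} [RCLike 𝕜]

/-- the number of large products -/
theorem large_products {n : ℕ} (hn : 1 ≤ n) {S : Type} [Fintype S] [DecidableEq S]
    (A B C : S → Matrix (Fin n) (Fin n) 𝕜) (η : ℝ)
    (hη : 0 ≤ η) (hE : ∑ i, ∑ j, ∑ k, ∑ l, ∑ p, ∑ q, ‖err A B C i j k l p q‖ ^ 2 ≤ η ^ 2)
    (lam : ℝ) (hlam : 0 ≤ lam) (T : Finset S)
    (hT : ∀ s ∉ T, fro (A s) * fro (B s) * fro (C s) ≤ lam) :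
    (n : ℝ) ^ 2 - ((η + √(η ^ 2 + 4 * lam * Fintype.card S)) / 2) ^ 2 / n ≤ T.card := by
  have hn0 : (0 : ℝ) < n := by exact_mod_cast hn
  by_cases hc : T.card ≤ n ^ 2
  · have h := nuc A B C T hc η hη hE
    have h1 : ∑ s ∈ Tᶜ, fro (A s) * fro (B s) * fro (C s) ≤ lam * Fintype.card S := by
      calc ∑ s ∈ Tᶜ, fro (A s) * fro (B s) * fro (C s) ≤ ∑ s ∈ Tᶜ, lam :=
            sum_le_sum fun s hs => hT s (by simpa using hs)
        _ = (Tᶜ).card * lam := by rw [sum_const, nsmul_eq_mul]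
        _ ≤ Fintype.card S * lam := by
            gcongr
            exact card_le_univ _
        _ = lam * Fintype.card S := mul_comm _ _
    set y := √(n * ((n : ℝ) ^ 2 - T.card)) with hy
    have hd : (0 : ℝ) ≤ (n : ℝ) ^ 2 - T.card := by
      have : ((T.card : ℕ) : ℝ) ≤ ((n ^ 2 : ℕ) : ℝ) := by exact_mod_cast hc
      push_cast at this
      linarith
    have hy2 : y ^ 2 = n * ((n : ℝ) ^ 2 - T.card) := Real.sq_sqrt (mul_nonneg hn0.le hd)
    have h2 : y ^ 2 - η * y ≤ lam * Fintype.card S := by rw [hy2]; linarith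
    have h0 : 0 ≤ η ^ 2 + 4 * lam * Fintype.card S := by positivity
    have h3 : (2 * y - η) ^ 2 ≤ η ^ 2 + 4 * lam * Fintype.card S := by nlinarith
    have h4 : 2 * y - η ≤ √(η ^ 2 + 4 * lam * Fintype.card S) := Real.le_sqrt_of_sq_le h3
    have h5 : y ≤ (η + √(η ^ 2 + 4 * lam * Fintype.card S)) / 2 := by linarith
    have h6 : y ^ 2 ≤ ((η + √(η ^ 2 + 4 * lam * Fintype.card S)) / 2) ^ 2 :=
      pow_le_pow_left₀ (Real.sqrt_nonneg _) h5 2
    rw [hy2] at h6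
    rw [sub_le_comm, le_div_iff₀ hn0]
    linarith
  · push Not at hc
    have h1 : ((n ^ 2 : ℕ) : ℝ) < ((T.card : ℕ) : ℝ) := by exact_mod_cast hc
    push_cast at h1
    have h2 : 0 ≤ ((η + √(η ^ 2 + 4 * lam * Fintype.card S)) / 2) ^ 2 / n := by positivity
    linarith

end Pool.Agent.H682R3.MM
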