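import Mathlib

/-!
# Approximate bilinear algorithms for matrix multiplication with exceptional products
-/

namespace Pool.Agent.H682R3.MM

open Finset Matrix ComplexConjugate

variable {𝕜 : Type} [RCLike 𝕜]

/-- The Frobenius norm. -/
noncomputable def fro {n : ℕ} (A : Matrix (Fin n) (Fin n) 𝕜) : ℝ := √(∑ i, ∑ j, ‖A i j‖ ^ 2)

/-- The difference of `∑ s, A s ⊗ B s ⊗ C s` and the tensor of the trilinear form
`tr (X Y Z) = ∑ X i j * Y j k * Z k i` (coefficient of `X i j * Y k l * Z p q`). -/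
noncomputable def err {n : ℕ} {S : Type} [Fintype S] (A B C : S → Matrix (Fin n) (Fin n) 𝕜)
    (i j k l p q : Fin n) : 𝕜 :=
  ∑ s, A s i j * B s k l * C s p q - if j = k ∧ l = p ∧ q = i then 1 else 0

/-- orthonormal vectors in the common kernel -/
theorem exists_kernel {n : ℕ} {S : Type} (A : S → Matrix (Fin n) (Fin n) 𝕜) (T : Finset S)
    (d : ℕ) (hd : d + T.card ≤ n ^ 2) :
    ∃ v : Fin d → EuclideanSpace 𝕜 (Fin n × Fin n), Orthonormal 𝕜 v ∧
      ∀ s ∈ T, ∀ l, ∑ p : Fin n × Fin n, A s p.1 p.2 * v l p = 0 := by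
  classical
  let E := EuclideanSpace 𝕜 (Fin n × Fin n)
  let R : Matrix T (Fin n × Fin n) 𝕜 := Matrix.of fun s p => A s.1 p.1 p.2
  let L : E →ₗ[𝕜] (T → 𝕜) := (Matrix.mulVecLin R).comp
    ((WithLp.linearEquiv 2 𝕜 (Fin n × Fin n → 𝕜)).toLinearMap)
  have hker : d ≤ Module.finrank 𝕜 (LinearMap.ker L) := by
    have h1 := LinearMap.finrank_range_add_finrank_ker L
    have h2 : Module.finrank 𝕜 (LinearMap.range L) ≤ T.card := by
      refine (Submodule.finrank_le _).trans ?_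
      rw [Module.finrank_fintype_fun_eq_card, Fintype.card_coe]
    have h3 : Module.finrank 𝕜 E = n ^ 2 := by simp [E, sq]
    omega
  let bas := stdOrthonormalBasis 𝕜 (LinearMap.ker L)
  refine ⟨fun l => ((bas (Fin.castLE hker l) : LinearMap.ker L) : E), ?_, ?_⟩
  · have h1 : Orthonormal 𝕜 (fun i => ((bas i : LinearMap.ker L) : E)) :=
      bas.orthonormal.comp_linearIsometry (LinearMap.ker L).subtypeₗᵢ
    exact h1.comp _ (Fin.castLE_injective hker)
  · intro s hs l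
    have h1 : L ((bas (Fin.castLE hker l) : LinearMap.ker L) : E) = 0 :=
      (bas (Fin.castLE hker l)).2
    have h2 := congrFun h1 ⟨s, hs⟩
    exact h2

section bessel

variable {I : Type} [Fintype I] {d : ℕ} (v : Fin d → EuclideanSpace 𝕜 I) (hv : Orthonormal 𝕜 v)

include hv

theorem bessel (x : I → 𝕜) : ∑ l, ‖∑ p, conj (v l p) * x p‖ ^ 2 ≤ ∑ p, ‖x p‖ ^ 2 := by
  have h := hv.sum_inner_products_le (WithLp.toLp 2 x : EuclideanSpace 𝕜 I) (s := univ)
  rw [EuclideanSpace.norm_sq_eq] at h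
  refine (le_of_eq ?_).trans h
  refine sum_congr rfl fun l _ => ?_
  rw [PiLp.inner_apply]
  congr 2
  refine sum_congr rfl fun p _ => ?_
  simp [RCLike.inner_apply, mul_comm]

theorem bessel' (x : I → 𝕜) : ∑ l, ‖∑ p, x p * v l p‖ ^ 2 ≤ ∑ p, ‖x p‖ ^ 2 := by
  have h := bessel v hv (fun p => conj (x p))
  simp only [RCLike.norm_conj] at h
  refine (le_of_eq ?_).trans h
  refine sum_congr rfl fun l _ => ?_
  rw [← RCLike.norm_conj (∑ p, x p * v l p), map_sum]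
  congr 2
  refine sum_congr rfl fun p _ => ?_
  rw [map_mul, mul_comm]

theorem norm_sq_sum : ∑ l, ∑ p, conj (v l p) * v l p = (d : 𝕜) := by
  have h1 : ∀ l, ∑ p, conj (v l p) * v l p = 1 := by
    intro l
    have h := (orthonormal_iff_ite.mp hv) l l
    rw [PiLp.inner_apply, if_pos rfl] at h
    rw [← h]
    refine sum_congr rfl fun p _ => ?_
    rw [RCLike.inner_apply, mul_comm]
  simp [h1]

end bessel

theorem fro_mul {n : ℕ} (B C : Matrix (Fin n) (Fin n) 𝕜) : fro (B * C) ≤ fro B * fro C := by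
  unfold fro
  rw [← Real.sqrt_mul (sum_nonneg fun _ _ => sum_nonneg fun _ _ => sq_nonneg _)]
  refine Real.sqrt_le_sqrt ?_
  have h1 : ∀ i j, ‖(B * C) i j‖ ^ 2 ≤ (∑ k, ‖B i k‖ ^ 2) * ∑ k, ‖C k j‖ ^ 2 := by
    intro i j
    rw [Matrix.mul_apply]
    refine le_trans ?_ (Finset.sum_mul_sq_le_sq_mul_sq univ _ _)
    refine pow_le_pow_left₀ (norm_nonneg _) ?_ 2
    refine (norm_sum_le _ _).trans (le_of_eq ?_)
    exact sum_congr rfl fun k _ => norm_mul _ _
  calc ∑ i, ∑ j, ‖(B * C) i j‖ ^ 2 ≤ ∑ i, ∑ j, (∑ k, ‖B i k‖ ^ 2) * ∑ k, ‖C k j‖ ^ 2 :=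
        sum_le_sum fun i _ => sum_le_sum fun j _ => h1 i j
    _ = (∑ i, ∑ k, ‖B i k‖ ^ 2) * ∑ j, ∑ k, ‖C k j‖ ^ 2 := by
        rw [sum_mul_sum]
    _ = (∑ i, ∑ j, ‖B i j‖ ^ 2) * ∑ i, ∑ j, ‖C i j‖ ^ 2 := by
        congr 1
        exact sum_comm

theorem fro_nonneg {n : ℕ} (A : Matrix (Fin n) (Fin n) 𝕜) : 0 ≤ fro A := Real.sqrt_nonneg _

theorem fro_sq {n : ℕ} (A : Matrix (Fin n) (Fin n) 𝕜) : fro A ^ 2 = ∑ i, ∑ j, ‖A i j‖ ^ 2 :=
  Real.sq_sqrt (sum_nonneg fun _ _ => sum_nonneg fun _ _ => sq_nonneg _)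

theorem cs {ι : Type} [Fintype ι] (x y : ι → 𝕜) (a b : ℝ) (ha : 0 ≤ a) (hb : 0 ≤ b)
    (hx : ∑ l, ‖x l‖ ^ 2 ≤ a ^ 2) (hy : ∑ l, ‖y l‖ ^ 2 ≤ b ^ 2) : ‖∑ l, x l * y l‖ ≤ a * b := by
  have h1 : ‖∑ l, x l * y l‖ ^ 2 ≤ (∑ l, ‖x l‖ ^ 2) * ∑ l, ‖y l‖ ^ 2 := by
    refine le_trans ?_ (Finset.sum_mul_sq_le_sq_mul_sq univ _ _)
    refine pow_le_pow_left₀ (norm_nonneg _) ?_ 2
    refine (norm_sum_le _ _).trans (le_of_eq ?_)
    exact sum_congr rfl fun k _ => norm_mul _ _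
  have h2 : ‖∑ l, x l * y l‖ ^ 2 ≤ (a * b) ^ 2 := by
    refine h1.trans ?_
    rw [mul_pow]
    exact mul_le_mul hx hy (sum_nonneg fun _ _ => sq_nonneg _) (sq_nonneg _)
  exact (abs_le_of_sq_le_sq' h2 (mul_nonneg ha hb)).2

theorem nuc {n : ℕ} {S : Type} [Fintype S] [DecidableEq S]
    (A B C : S → Matrix (Fin n) (Fin n) 𝕜) (T : Finset S) (hT : T.card ≤ n ^ 2) (η : ℝ)
    (hη : 0 ≤ η) (hE : ∑ i, ∑ j, ∑ k, ∑ l, ∑ p, ∑ q, ‖err A B C i j k l p q‖ ^ 2 ≤ η ^ 2) :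
    n * ((n : ℝ) ^ 2 - T.card) - η * √(n * ((n : ℝ) ^ 2 - T.card)) ≤
      ∑ s ∈ Tᶜ, fro (A s) * fro (B s) * fro (C s) := by
  classical
  obtain ⟨d, hd⟩ : ∃ d, d + T.card = n ^ 2 := ⟨n ^ 2 - T.card, Nat.sub_add_cancel hT⟩
  obtain ⟨v, hv, hvT⟩ := exists_kernel A T d hd.le
  have hdr : ((n : ℝ) ^ 2 - T.card) = d := by
    have : ((d + T.card : ℕ) : ℝ) = ((n ^ 2 : ℕ) : ℝ) := by rw [hd]
    push_cast at this
    linarith
  rw [hdr]
  -- notation
  set α : S → Fin d → 𝕜 := fun s l => ∑ p : Fin n × Fin n, A s p.1 p.2 * v l p with hα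
  set β : S → Fin d → 𝕜 := fun s l =>
    ∑ p : Fin n × Fin n, conj (v l p) * (B s * C s) p.2 p.1 with hβ
  set ε : Fin d → (Fin n × Fin n) → Fin n → 𝕜 := fun l p k =>
    ∑ p' : Fin n × Fin n, err A B C p'.1 p'.2 p.2 k k p.1 * v l p' with hε
  have hα0 : ∀ s ∈ T, ∀ l, α s l = 0 := fun s hs l => hvT s hs l
  have hα1 : ∀ s, ∑ l, ‖α s l‖ ^ 2 ≤ fro (A s) ^ 2 := by
    intro s
    rw [fro_sq]
    refine (bessel' v hv (fun p : Fin n × Fin n => A s p.1 p.2)).trans (le_of_eq ?_)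
    rw [Fintype.sum_prod_type]
  have hβ1 : ∀ s, ∑ l, ‖β s l‖ ^ 2 ≤ (fro (B s) * fro (C s)) ^ 2 := by
    intro s
    refine (bessel v hv (fun p : Fin n × Fin n => (B s * C s) p.2 p.1)).trans ?_
    refine le_trans (le_of_eq ?_) (pow_le_pow_left₀ (fro_nonneg _) (fro_mul (B s) (C s)) 2)
    rw [fro_sq, Fintype.sum_prod_type, sum_comm]
  -- the main identity
  have hid : ∀ (l : Fin d) (p : Fin n × Fin n) (k : Fin n),
      ∑ s, α s l * (B s p.2 k * C s k p.1) = v l p + ε l p k := by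
    intro l p k
    have h1 : ε l p k = ∑ s, α s l * (B s p.2 k * C s k p.1) - v l p := by
      simp only [hε, err, sub_mul, sum_sub_distrib, hα, sum_mul]
      congr 1
      · rw [sum_comm]
        refine sum_congr rfl fun s _ => sum_congr rfl fun p' _ => ?_
        ring
      · have h2 : ∀ p' : Fin n × Fin n,
            (if p'.2 = p.2 ∧ True ∧ p.1 = p'.1 then (1 : 𝕜) else 0) * v l p' =
            if p' = p then v l p' else 0 := by
          intro p'
          by_cases h : p' = p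
          · subst h; simp
          · have h3 : ¬ (p'.2 = p.2 ∧ True ∧ p.1 = p'.1) := by
              rintro ⟨h4, _, h5⟩
              exact h (Prod.ext h5.symm h4)
            rw [if_neg h3, if_neg h, zero_mul]
        rw [sum_congr rfl fun p' _ => h2 p']
        simp
    rw [h1]; ring
  set Λ : 𝕜 := ∑ l, ∑ p : Fin n × Fin n, ∑ k, conj (v l p) *
    ∑ s, α s l * (B s p.2 k * C s k p.1) with hΛ
  set Er : 𝕜 := ∑ l, ∑ p : Fin n × Fin n, ∑ k, conj (v l p) * ε l p k with hEr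
  have e1 : Λ = (n : 𝕜) * (d : 𝕜) + Er := by
    rw [hΛ, hEr, ← norm_sq_sum v hv, mul_sum, ← sum_add_distrib]
    refine sum_congr rfl fun l _ => ?_
    rw [mul_sum, ← sum_add_distrib]
    refine sum_congr rfl fun p _ => ?_
    have h1 : (n : 𝕜) * (conj (v l p) * v l p) = ∑ _k : Fin n, conj (v l p) * v l p := by
      rw [sum_const, card_univ, Fintype.card_fin, nsmul_eq_mul]
    rw [h1, ← sum_add_distrib]
    refine sum_congr rfl fun k _ => ?_
    rw [hid, mul_add]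
  have e2 : Λ = ∑ s, ∑ l, α s l * β s l := by
    rw [hΛ]
    have h1 : ∀ l, ∑ p : Fin n × Fin n, ∑ k, conj (v l p) *
        ∑ s, α s l * (B s p.2 k * C s k p.1) = ∑ s, α s l * β s l := by
      intro l
      simp only [hβ, mul_sum, Matrix.mul_apply]
      have h2 : ∀ p : Fin n × Fin n, ∑ k, ∑ s, conj (v l p) * (α s l * (B s p.2 k * C s k p.1)) =
          ∑ s, ∑ k, conj (v l p) * (α s l * (B s p.2 k * C s k p.1)) := fun p => sum_comm
      rw [sum_congr rfl fun p _ => h2 p, sum_comm]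
      refine sum_congr rfl fun s _ => sum_congr rfl fun p _ => sum_congr rfl fun k _ => ?_
      ring
    rw [sum_congr rfl fun l _ => h1 l, sum_comm]
  have e3 : ‖Λ‖ ≤ ∑ s ∈ Tᶜ, fro (A s) * fro (B s) * fro (C s) := by
    rw [e2, ← sum_compl_add_sum T]
    have h1 : ∑ s ∈ T, ∑ l, α s l * β s l = 0 :=
      sum_eq_zero fun s hs => sum_eq_zero fun l _ => by rw [hα0 s hs l, zero_mul]
    rw [h1, add_zero]
    refine (norm_sum_le _ _).trans (sum_le_sum fun s _ => ?_)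
    rw [mul_assoc]
    exact cs (α s) (β s) _ _ (fro_nonneg _) (mul_nonneg (fro_nonneg _) (fro_nonneg _)) (hα1 s)
      (hβ1 s)
  have e4 : ‖Er‖ ≤ √(n * (d : ℝ)) * η := by
    have h1 : Er = ∑ x : Fin d × (Fin n × Fin n) × Fin n,
        conj (v x.1 x.2.1) * ε x.1 x.2.1 x.2.2 := by
      rw [hEr, Fintype.sum_prod_type]
      refine sum_congr rfl fun l _ => ?_
      exact (Fintype.sum_prod_type
        (fun y : (Fin n × Fin n) × Fin n => conj (v l y.1) * ε l y.1 y.2)).symm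
    rw [h1]
    refine cs _ _ _ _ (Real.sqrt_nonneg _) hη ?_ ?_
    · rw [Real.sq_sqrt (by positivity)]
      simp only [RCLike.norm_conj]
      rw [Fintype.sum_prod_type]
      have h2 : ∀ l, ∑ y : (Fin n × Fin n) × Fin n, ‖v l y.1‖ ^ 2 = n := by
        intro l
        rw [Fintype.sum_prod_type]
        simp only [sum_const, card_univ, Fintype.card_fin, nsmul_eq_mul]
        rw [← mul_sum, ← EuclideanSpace.norm_sq_eq, hv.1 l]
        ring
      rw [sum_congr rfl fun l _ => h2 l, sum_const, card_univ, Fintype.card_fin, nsmul_eq_mul]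
      linarith
    · rw [Fintype.sum_prod_type, sum_comm]
      refine le_trans (sum_le_sum fun y _ => bessel' v hv
        (fun p' : Fin n × Fin n => err A B C p'.1 p'.2 y.1.2 y.2 y.2 y.1.1)) ?_
      refine le_trans ?_ hE
      rw [sum_comm, Fintype.sum_prod_type]
      refine sum_le_sum fun i _ => sum_le_sum fun j _ => ?_
      rw [Fintype.sum_prod_type, Fintype.sum_prod_type]
      simp only
      -- sum over q, k, l
      have h5 : ∑ x : Fin n, ∑ x_1 : Fin n, ∑ x_2 : Fin n, ‖err A B C i j x_1 x_2 x_2 x‖ ^ 2 =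
          ∑ k : Fin n, ∑ l : Fin n, ∑ q : Fin n, ‖err A B C i j k l l q‖ ^ 2 := by
        rw [sum_comm]
        refine sum_congr rfl fun k _ => ?_
        rw [sum_comm]
      rw [h5]
      refine sum_le_sum fun k _ => sum_le_sum fun l _ => ?_
      exact single_le_sum (f := fun p => ∑ q, ‖err A B C i j k l p q‖ ^ 2)
        (fun p _ => sum_nonneg fun q _ => sq_nonneg _) (mem_univ l)
  have e5 : (n : ℝ) * d ≤ ‖Λ‖ + ‖Er‖ := by
    have h1 : ((n : 𝕜) * (d : 𝕜)) = Λ - Er := by rw [e1]; ring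
    have h2 : ‖((n : 𝕜) * (d : 𝕜))‖ = (n : ℝ) * d := by
      rw [norm_mul, RCLike.norm_natCast, RCLike.norm_natCast]
    rw [← h2, h1]
    exact norm_sub_le _ _
  linarith

end Pool.Agent.H682R3.MM
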